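import Pool.Agent.Y97.AB.Tau

/-!
# Products of classes of degree one span the cohomology of powers
-/

set_option linter.unusedSectionVars false

open CategoryTheory AlgebraicGeometry Finset

universe u v

namespace Pool.Agent.Y232.AB

open Pool.Agent.H914 Pool.Agent.H914.VarClass Pool.Agent.H914.VarClass.Obj
  Pool.Agent.H914.WeilCohomology Pool.Agent.H281R3.HT Pool.Agent.W539.Ker
  Pool.Agent.Y97 Pool.Agent.Y97.FD Pool.Agent.Y97.AB
open Pool.Agent.W552 hiding mon

variable {k : Type u} [Field k] {𝒱 : VarClass k} {ops : CycleOps 𝒱}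
  {W : WeilCohomology.{u, v} ops} {P : Polarized 𝒱}
  {f : Module.End W.K (W.H P.X)}

/-- The pull-back of a product along a morphism. -/
lemma map_mon_ofFn {Y : 𝒱.Obj} (b : HB W P.X) (t : ℕ) (g : Y ⟶ (power ops P t).X) {n : ℕ}
    (φ : Fin n → Fin (t + 1)) (x : Fin n → Fin (N1 b)) :
    W.map g (mon (ops := ops) b t φ x) =
      (List.ofFn fun l => W.map (g ≫ pr ops P t (φ l)) (e1 b (x l))).prod := by
  rw [mon, map_list_prod, List.map_ofFn]
  congr 2
  funext l
  exact (W.map_comp _ _ _).symm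

lemma map_fst_mon (b : HB W P.X) (t : ℕ) {n : ℕ} (φ : Fin n → Fin 1) (x : Fin n → Fin (N1 b)) :
    W.map (fst P.X (power ops P t).X) (mon (ops := ops) b 0 φ x) =
      mon (ops := ops) b (t + 1) (fun _ => 0) x := by
  have h := map_mon_ofFn (ops := ops) b 0 (fst P.X (power ops P t).X) φ x
  refine h.trans ?_
  rw [mon]
  congr 2

lemma map_snd_mon (b : HB W P.X) (t : ℕ) {n : ℕ} (φ : Fin n → Fin (t + 1))
    (x : Fin n → Fin (N1 b)) :
    W.map (snd P.X (power ops P t).X) (mon (ops := ops) b t φ x) =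
      mon (ops := ops) b (t + 1) (Fin.succ ∘ φ) x :=
  map_mon_ofFn (ops := ops) b t (snd P.X (power ops P t).X) φ x

/-- The classes of degree one are combinations of the basis vectors of degree one. -/
lemma gr_one_span (b : HB W P.X) (v : W.H P.X) (hv : v ∈ W.gr P.X 1) :
    v ∈ Submodule.span W.K (Set.range (e1 b)) := by
  classical
  have h1 : proj (W.isInternal P.X) 1 v = v := proj_same _ hv
  have h2 := b.e.sum_repr v
  rw [← h1, ← h2, map_sum]
  refine Submodule.sum_mem _ fun i _ => ?_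
  rw [map_smul]
  refine Submodule.smul_mem _ _ ?_
  by_cases hi : b.dg i = 1
  · obtain ⟨a, ha⟩ := j1_surj b hi
    rw [proj_same _ (hi ▸ b.mem i)]
    refine Submodule.subset_span ⟨a, ?_⟩
    rw [e1, ha]
  · rw [proj_ne _ (b.mem i) hi]
    exact Submodule.zero_mem _

/-- The span of the products. -/
noncomputable def SM (b : HB W P.X) (t : ℕ) : Submodule W.K (W.H (power ops P t).X) :=
  Submodule.span W.K {c : W.H (power ops P t).X | ∃ (n : ℕ) (φ : Fin n → Fin (t + 1))
    (x : Fin n → Fin (N1 b)), c = mon b t φ x}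

lemma mon_mem_SM (b : HB W P.X) (t : ℕ) {n : ℕ} (φ : Fin n → Fin (t + 1))
    (x : Fin n → Fin (N1 b)) : mon (ops := ops) b t φ x ∈ SM (ops := ops) b t :=
  Submodule.subset_span ⟨n, φ, x, rfl⟩

lemma mul_mem_SM (b : HB W P.X) (t : ℕ) {c d : W.H (power ops P t).X}
    (hc : c ∈ SM (ops := ops) b t) (hd : d ∈ SM (ops := ops) b t) :
    c * d ∈ SM (ops := ops) b t := by
  refine Submodule.span_induction (p := fun c _ => c * d ∈ SM (ops := ops) b t) ?_ ?_ ?_ ?_ hc
  · rintro c ⟨n, φ, x, rfl⟩
    refine Submodule.span_induction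
      (p := fun d _ => mon b t φ x * d ∈ SM (ops := ops) b t) ?_ ?_ ?_ ?_ hd
    · rintro d ⟨m, ψ, y, rfl⟩
      rw [mon_append]
      exact mon_mem_SM b t _ _
    · rw [mul_zero]; exact Submodule.zero_mem _
    · intro y z _ _ hy hz
      rw [mul_add]; exact Submodule.add_mem _ hy hz
    · intro r y _ hy
      rw [mul_smul_comm]; exact Submodule.smul_mem _ _ hy
  · rw [zero_mul]; exact Submodule.zero_mem _
  · intro y z _ _ hy hz
    rw [add_mul]; exact Submodule.add_mem _ hy hz
  · intro r y _ hy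
    rw [smul_mul_assoc]; exact Submodule.smul_mem _ _ hy

lemma one_mem_SM (b : HB W P.X) (t : ℕ) : (1 : W.H (power ops P t).X) ∈ SM (ops := ops) b t := by
  have h := mon_mem_SM (ops := ops) b t (n := 0) Fin.elim0 Fin.elim0
  rwa [mon_zero] at h

lemma e1_mem_SM (b : HB W P.X) (a : Fin (N1 b)) :
    (show W.H (power ops P 0).X from e1 b a) ∈ SM (ops := ops) b 0 := by
  have h3 := mon_mem_SM (ops := ops) b 0 (n := 1) (fun _ => 0) (fun _ => a)
  have h4 : mon (ops := ops) b 0 (n := 1) (fun _ => 0) (fun _ => a) = e1 b a := by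
    rw [mon, List.ofFn_succ, List.ofFn_zero, List.prod_cons, List.prod_nil, mul_one]
    exact W.map_id _ _
  exact h4 ▸ h3

lemma gr_mem_SM (b : HB W P.X) (v : W.H P.X) (hv : v ∈ W.gr P.X 1) :
    (show W.H (power ops P 0).X from v) ∈ SM (ops := ops) b 0 := by
  refine Submodule.span_induction (p := fun c _ => (show W.H (power ops P 0).X from c) ∈
    SM (ops := ops) b 0) ?_ ?_ ?_ ?_ (gr_one_span b v hv)
  · rintro _ ⟨a, rfl⟩
    exact e1_mem_SM b a
  · exact Submodule.zero_mem _
  · intro y z _ _ hy hz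
    exact Submodule.add_mem _ hy hz
  · intro r y _ hy
    exact Submodule.smul_mem _ _ hy

lemma mem_SM_zero (h : IsExterior W P.X) (b : HB W P.X) (c : W.H P.X) :
    (show W.H (power ops P 0).X from c) ∈ SM (ops := ops) b 0 := by
  obtain ⟨u, rfl⟩ := h.2 c
  refine ExteriorAlgebra.induction (C := fun u => (show W.H (power ops P 0).X from
    extHom W P.X u) ∈ SM (ops := ops) b 0) ?_ ?_ ?_ ?_ u
  · intro r
    have h1 : extHom W P.X (algebraMap _ _ r) = r • (1 : W.H P.X) := by
      rw [AlgHom.commutes, Algebra.algebraMap_eq_smul_one]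
    have h2 : (show W.H (power ops P 0).X from r • (1 : W.H P.X)) ∈ SM (ops := ops) b 0 :=
      Submodule.smul_mem _ r (one_mem_SM b 0)
    exact h1 ▸ h2
  · intro v
    have h1 : extHom W P.X (ExteriorAlgebra.ι _ v) = (v : W.H P.X) := by
      rw [extHom, ExteriorAlgebra.lift_ι_apply]; rfl
    have h2 := gr_mem_SM (ops := ops) b _ v.2
    exact h1 ▸ h2
  · intro u w hu hw
    have h1 : extHom W P.X (u * w) = extHom W P.X u * extHom W P.X w := map_mul _ _ _
    have h2 : (show W.H (power ops P 0).X from extHom W P.X u * extHom W P.X w) ∈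
      SM (ops := ops) b 0 := mul_mem_SM b 0 hu hw
    exact h1 ▸ h2
  · intro u w hu hw
    have h1 : extHom W P.X (u + w) = extHom W P.X u + extHom W P.X w := map_add _ _ _
    have h2 : (show W.H (power ops P 0).X from extHom W P.X u + extHom W P.X w) ∈
      SM (ops := ops) b 0 := Submodule.add_mem _ hu hw
    exact h1 ▸ h2

lemma map_SM {t s : ℕ} (b : HB W P.X) (g : (power ops P s).X ⟶ (power ops P t).X)
    (hg : ∀ (n : ℕ) (φ : Fin n → Fin (t + 1)) (x : Fin n → Fin (N1 b)),
      W.map g (mon b t φ x) ∈ SM (ops := ops) b s) (c : W.H (power ops P t).X)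
    (hc : c ∈ SM (ops := ops) b t) : W.map g c ∈ SM (ops := ops) b s := by
  refine Submodule.span_induction (p := fun c _ => W.map g c ∈ SM (ops := ops) b s)
    ?_ ?_ ?_ ?_ hc
  · rintro _ ⟨n, φ, x, rfl⟩
    exact hg n φ x
  · rw [map_zero]; exact Submodule.zero_mem _
  · intro y z _ _ hy hz
    rw [map_add]; exact Submodule.add_mem _ hy hz
  · intro r y _ hy
    rw [map_smul]; exact Submodule.smul_mem _ _ hy

lemma map_fst_SM (b : HB W P.X) (t : ℕ) (c : W.H P.X)
    (hc : (show W.H (power ops P 0).X from c) ∈ SM (ops := ops) b 0) :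
    W.map (fst P.X (power ops P t).X) c ∈ SM (ops := ops) b (t + 1) := by
  refine map_SM (ops := ops) (t := 0) (s := t + 1) b (fst P.X (power ops P t).X) ?_ c hc
  intro n φ x
  have h3 := map_fst_mon (ops := ops) b t φ x
  have h4 := mon_mem_SM (ops := ops) b (t + 1) (fun _ => 0) x
  exact h3 ▸ h4

lemma map_snd_SM (b : HB W P.X) (t : ℕ) (c : W.H (power ops P t).X)
    (hc : c ∈ SM (ops := ops) b t) :
    W.map (snd P.X (power ops P t).X) c ∈ SM (ops := ops) b (t + 1) := by
  refine map_SM (ops := ops) (t := t) (s := t + 1) b (snd P.X (power ops P t).X) ?_ c hc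
  intro n φ x
  have h3 := map_snd_mon (ops := ops) b t φ x
  have h4 := mon_mem_SM (ops := ops) b (t + 1) (Fin.succ ∘ φ) x
  exact h3 ▸ h4

theorem SM_top (h : IsExterior W P.X) (b : HB W P.X) (t : ℕ) : SM (ops := ops) b t = ⊤ := by
  induction t with
  | zero => exact eq_top_iff.2 fun c _ => mem_SM_zero h b c
  | succ t ih =>
    refine eq_top_iff.2 fun c _ => ?_
    rw [← sum_co b (t + 1) c]
    refine Submodule.sum_mem _ fun x _ => Submodule.smul_mem _ _ ?_
    rw [vec_succ]
    refine mul_mem_SM b (t + 1) (map_fst_SM b t _ (mem_SM_zero h b _)) (map_snd_SM b t _ ?_)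
    rw [ih]
    exact Submodule.mem_top

/-- **Products of classes of degree one span the cohomology of powers.** -/
theorem span_mon (h : IsExterior W P.X) (b : HB W P.X) (t : ℕ) :
    Submodule.span W.K {c : W.H (power ops P t).X | ∃ (n : ℕ) (φ : Fin n → Fin (t + 1))
      (x : Fin n → Fin (N1 b)), c = mon b t φ x} = ⊤ :=
  SM_top h b t

end Pool.Agent.Y232.AB
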